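import Pool.Agent.U162.SH.Stm

/-!
# Project SH, package TON: Tonelli's theorem for Duhamel integrals
-/

set_option autoImplicit false

open MeasureTheory Set Filter Topology
open scoped ENNReal NNReal

namespace Pool.Agent.U162.SH.TONp

/-- the kernel -/
noncomputable def K (a s τ : ℝ) : ℝ≥0∞ :=
  if τ < s then ENNReal.ofReal (Real.exp (-(a * (s - τ)))) else 0

lemma meas_K (a : ℝ) : Measurable fun p : ℝ × ℝ => K a p.1 p.2 := by
  unfold K
  refine Measurable.ite (measurableSet_lt measurable_snd measurable_fst) ?_ measurable_const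
  fun_prop

/-- the base measure -/
noncomputable def lam (T : ℝ) : Measure ℝ := Measure.dirac 0 + volume.restrict (Ioo 0 T)

instance (T : ℝ) : SFinite (lam T) := by unfold lam; infer_instance

/-- the density -/
noncomputable def den (x₀ : ℝ≥0∞) (ρ : ℝ → ℝ≥0∞) (τ : ℝ) : ℝ≥0∞ := if τ = 0 then x₀ else ρ τ

lemma meas_den {x₀ : ℝ≥0∞} {ρ : ℝ → ℝ≥0∞} (hρ : Measurable ρ) : Measurable (den x₀ ρ) := by
  unfold den
  exact Measurable.ite (measurableSet_eq) measurable_const hρ

lemma lint_lam {T : ℝ} {h : ℝ → ℝ≥0∞} (hh : Measurable h) :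
    ∫⁻ τ, h τ ∂(lam T) = h 0 + ∫⁻ τ in Ioo 0 T, h τ := by
  unfold lam
  rw [lintegral_add_measure, lintegral_dirac' _ hh]

lemma lint_den {T : ℝ} {x₀ : ℝ≥0∞} {ρ : ℝ → ℝ≥0∞} (hρ : Measurable ρ) :
    ∫⁻ τ, den x₀ ρ τ ∂(lam T) = x₀ + ∫⁻ τ in Ioo 0 T, ρ τ := by
  rw [lint_lam (meas_den hρ)]
  congr 1
  · simp [den]
  · refine setLIntegral_congr_fun measurableSet_Ioo fun τ hτ => ?_
    unfold den
    rw [if_neg hτ.1.ne']

lemma bd {a T : ℝ} {x ρ : ℝ → ℝ≥0∞} {x₀ : ℝ≥0∞} (hρ : Measurable ρ)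
    (hx : ∀ s ∈ Ioo 0 T, x s ≤ ENNReal.ofReal (Real.exp (-(a * s))) * x₀ +
      ∫⁻ τ in Ioo 0 s, ENNReal.ofReal (Real.exp (-(a * (s - τ)))) * ρ τ) (s : ℝ)
    (hs : s ∈ Ioo 0 T) : x s ≤ ∫⁻ τ, K a s τ * den x₀ ρ τ ∂(lam T) := by
  have hm : Measurable fun τ => K a s τ * den x₀ ρ τ :=
    ((meas_K a).comp (measurable_const.prodMk measurable_id)).mul (meas_den hρ)
  rw [lint_lam hm]
  refine (hx s hs).trans (add_le_add ?_ ?_)
  · unfold K den
    rw [if_pos hs.1, if_pos rfl, sub_zero]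
  · calc ∫⁻ τ in Ioo 0 s, ENNReal.ofReal (Real.exp (-(a * (s - τ)))) * ρ τ
        = ∫⁻ τ in Ioo 0 s, K a s τ * den x₀ ρ τ := by
          refine setLIntegral_congr_fun measurableSet_Ioo fun τ hτ => ?_
          unfold K den
          rw [if_pos hτ.2, if_neg hτ.1.ne']
      _ ≤ _ := lintegral_mono_set (Ioo_subset_Ioo_right hs.2.le)

lemma exp_bound {c : ℝ} (hc : 0 < c) (m : ℝ) :
    ∫⁻ s in Ioi m, ENNReal.ofReal (Real.exp (-(c * (s - m)))) = ENNReal.ofReal (1 / c) := by
  have h1 : ∀ s : ℝ, Real.exp (-(c * (s - m))) = Real.exp (c * m) * Real.exp (-c * s) := by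
    intro s
    rw [← Real.exp_add]
    congr 1
    ring
  simp_rw [h1]
  have hint : IntegrableOn (fun s => Real.exp (c * m) * Real.exp (-c * s)) (Ioi m) :=
    (integrableOn_exp_mul_Ioi (by linarith) m).const_mul _
  rw [← ofReal_integral_eq_lintegral_ofReal hint
    (Filter.Eventually.of_forall fun s => by positivity), integral_const_mul,
    integral_exp_mul_Ioi (by linarith)]
  congr 1
  have h2 : Real.exp (c * m) * Real.exp (-c * m) = 1 := by
    rw [← Real.exp_add]
    simp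
  have hc' : c ≠ 0 := hc.ne'
  rw [neg_div_neg_eq, ← mul_div_assoc, h2]

lemma inner {a b : ℝ} (ha : 0 < a) (hb : 0 < b) (T τ τ' : ℝ) :
    ∫⁻ s in Ioo 0 T, K a s τ * K b s τ' ≤ ENNReal.ofReal (1 / (a + b)) := by
  rw [← exp_bound (add_pos ha hb) (max τ τ')]
  calc ∫⁻ s in Ioo 0 T, K a s τ * K b s τ'
      ≤ ∫⁻ s, (Ioi (max τ τ')).indicator
          (fun s => ENNReal.ofReal (Real.exp (-((a + b) * (s - max τ τ'))))) s := by
        refine (setLIntegral_le_lintegral _ _).trans (lintegral_mono fun s => ?_)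
        unfold K
        by_cases h : s ∈ Ioi (max τ τ')
        · rw [indicator_of_mem h]
          have h1 : τ < s := lt_of_le_of_lt (le_max_left _ _) h
          have h2 : τ' < s := lt_of_le_of_lt (le_max_right _ _) h
          rw [if_pos h1, if_pos h2, ← ENNReal.ofReal_mul (Real.exp_nonneg _), ← Real.exp_add]
          refine ENNReal.ofReal_le_ofReal (Real.exp_le_exp.2 ?_)
          have h3 : τ ≤ max τ τ' := le_max_left _ _
          have h4 : τ' ≤ max τ τ' := le_max_right _ _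
          nlinarith
        · rw [indicator_of_notMem h]
          rw [mem_Ioi, not_lt, le_max_iff] at h
          rcases h with h | h
          · rw [if_neg (not_lt.2 h), zero_mul]
          · rw [if_neg (not_lt.2 h), mul_zero]
    _ = _ := lintegral_indicator measurableSet_Ioi _

end Pool.Agent.U162.SH.TONp

namespace Pool.Agent.U162.SH
open TONp

/-- Tonelli -/
theorem t_TON : S_TON := by
  intro α β T hα hβ x y ρ σ x₀ y₀ hρ hσ hx hy
  set f := den x₀ ρ with hf
  set g := den y₀ σ with hg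
  have hfm : Measurable f := meas_den hρ
  have hgm : Measurable g := meas_den hσ
  have hKa := meas_K α
  have hKb := meas_K β
  -- joint measurability
  have m1 : Measurable fun p : ℝ × ℝ => K α p.1 p.2 * f p.2 := hKa.mul (hfm.comp measurable_snd)
  have m2 : Measurable fun p : ℝ × ℝ => K β p.1 p.2 * g p.2 := hKb.mul (hgm.comp measurable_snd)
  have hs1 : ∀ s, Measurable fun τ => K α s τ * f τ := fun s =>
    m1.comp (measurable_const.prodMk measurable_id)
  have hs2 : ∀ s, Measurable fun τ => K β s τ * g τ := fun s =>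
    m2.comp (measurable_const.prodMk measurable_id)
  have hY : Measurable fun s => ∫⁻ τ', K β s τ' * g τ' ∂(lam T) :=
    Measurable.lintegral_prod_right' (ν := lam T) m2
  calc ∫⁻ s in Ioo 0 T, x s * y s
      ≤ ∫⁻ s in Ioo 0 T, (∫⁻ τ, K α s τ * f τ ∂(lam T)) * (∫⁻ τ', K β s τ' * g τ' ∂(lam T)) := by
        refine setLIntegral_mono' measurableSet_Ioo fun s hs => ?_
        exact mul_le_mul' (bd hρ hx s hs) (bd hσ hy s hs)
    _ = ∫⁻ s in Ioo 0 T, ∫⁻ τ, K α s τ * f τ * (∫⁻ τ', K β s τ' * g τ' ∂(lam T)) ∂(lam T) := by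
        refine lintegral_congr fun s => ?_
        rw [lintegral_mul_const _ (hs1 s)]
    _ = ∫⁻ τ, (∫⁻ s in Ioo 0 T, K α s τ * f τ * (∫⁻ τ', K β s τ' * g τ' ∂(lam T))) ∂(lam T) := by
        refine lintegral_lintegral_swap ?_
        exact (m1.mul (hY.comp measurable_fst)).aemeasurable
    _ = ∫⁻ τ, (∫⁻ s in Ioo 0 T, ∫⁻ τ', K α s τ * f τ * (K β s τ' * g τ') ∂(lam T)) ∂(lam T) := by
        refine lintegral_congr fun τ => lintegral_congr fun s => ?_
        rw [lintegral_const_mul _ (hs2 s)]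
    _ = ∫⁻ τ, ∫⁻ τ', (∫⁻ s in Ioo 0 T, K α s τ * f τ * (K β s τ' * g τ')) ∂(lam T) ∂(lam T) := by
        refine lintegral_congr fun τ => ?_
        refine lintegral_lintegral_swap ?_
        have h1 : Measurable fun p : ℝ × ℝ => K α p.1 τ * f τ :=
          (m1.comp (measurable_fst.prodMk measurable_const))
        exact (h1.mul m2).aemeasurable
    _ ≤ ∫⁻ τ, ∫⁻ τ', f τ * g τ' * ENNReal.ofReal (1 / (α + β)) ∂(lam T) ∂(lam T) := by
        refine lintegral_mono fun τ => lintegral_mono fun τ' => ?_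
        have h1 : ∀ s, K α s τ * f τ * (K β s τ' * g τ') = f τ * g τ' * (K α s τ * K β s τ') := by
          intro s; ring
        simp only [h1]
        have h2 : Measurable fun s => K α s τ * K β s τ' :=
          (hKa.comp (measurable_id.prodMk measurable_const)).mul
            (hKb.comp (measurable_id.prodMk measurable_const))
        rw [lintegral_const_mul _ h2]
        exact mul_le_mul' le_rfl (inner hα hβ T τ τ')
    _ = (∫⁻ τ, f τ ∂(lam T)) * (∫⁻ τ', g τ' ∂(lam T)) * ENNReal.ofReal (1 / (α + β)) := by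
        have h1 : ∀ τ, ∫⁻ τ', f τ * g τ' * ENNReal.ofReal (1 / (α + β)) ∂(lam T) =
            f τ * (∫⁻ τ', g τ' ∂(lam T)) * ENNReal.ofReal (1 / (α + β)) := by
          intro τ
          rw [lintegral_mul_const _ (hgm.const_mul _), lintegral_const_mul _ hgm]
        simp_rw [h1]
        rw [lintegral_mul_const _ (hfm.mul_const _), lintegral_mul_const _ hfm]
    _ = _ := by rw [hf, hg, lint_den hρ, lint_den hσ]

end Pool.Agent.U162.SH
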